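import Pool.Agent.H644.App3
import Pool.Graph.R_pool_sql_team_seeded_2aa45f1a.Results.MP_dbe07f_lc.SetParameters

/-!
# The HOD Hypothesis and the approximation property

Let `δ` be an extendible cardinal. The HOD Hypothesis is equivalent to the `δ`-approximation property
of HOD, and to very weak forms of approximation: some class `M ⊆ HOD_p` (for some set `p`) which
contains the finite sets of ordinals has the `κ`-approximation property for countable sets of
ordinals, for some `κ`; some class `M ⊆ HOD` which contains the finite sets of ordinals has the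
`κ`-approximation property for countable subsets of `l`, for one regular `l > δ` and some `κ < l`.
-/

set_option autoImplicit false

namespace Pool.Agent.Results.MP_e37c09_lc.Approximation

open Pool.Agent.H310.HD Pool.Agent.H639 Pool.Agent.H644 Gss969 ZFSet
open Pool.Agent.Results.MP_e37c09_lc.AlternativeA

universe u

/-- The `κ`-approximation property of the class `M`: a set `A` of elements of `M` is in `M` if its
intersections with all elements of `M` of size less than `κ` are in `M`. -/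
def Approx (κ : Ordinal.{u}) (M : ZFSet.{u} → Prop) : Prop :=
  ∀ A, (∀ x ∈ A, M x) → (∀ T, M T → Small κ T → M (A ∩ T)) → M A

/-- Approximation relative to a set `p`: a set `A ⊆ HOD` is in `HOD_p` if its intersections with all
sets in HOD of size less than `κ` are in `HOD_p`. -/
def ApproxRel (κ : Ordinal.{u}) (p : ZFSet.{u}) : Prop :=
  ∀ A, (∀ x ∈ A, HOD x) → (∀ T, HOD T → Small κ T → HODp p (A ∩ T)) → HODp p A

theorem od_of_odp_empty {x : ZFSet.{u}} (h : ODp ∅ x) : OD x := by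
  obtain ⟨α, φ, s, hs, hp, hx, h1⟩ := h
  refine ⟨α, φ, Function.update s 1 ∅, fun i => ?_, hx, h1⟩
  by_cases hi : i = 1
  · subst hi
    rw [Function.update_self]
    exact ⟨hp, empty_ord⟩
  · rw [Function.update_of_ne hi]
    exact hs i

theorem hod_of_hodp_empty {x : ZFSet.{u}} (h : HODp ∅ x) : HOD x := by
  obtain ⟨t, ht, hx, h1⟩ := h
  exact ⟨t, ht, hx, fun y hy => od_of_odp_empty (h1 y hy)⟩

theorem finSets_HOD : FinSets HOD.{u} := by
  classical
  intro s
  induction s using Finset.induction_on with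
  | empty =>
    intro B hB
    have : B = ∅ := by
      ext x
      rw [hB]
      simp
    rw [this]
    exact HOD_empty
  | insert a s ha ih =>
    intro B hB
    obtain ⟨γ, hγ⟩ : ∃ γ : Ordinal.{u}, ∀ b ∈ insert a s, b < γ := by
      refine ⟨Order.succ ((insert a s).sup id), fun b hb => ?_⟩
      rw [Order.lt_succ_iff]
      exact Finset.le_sup (f := id) hb
    obtain ⟨B', hB'⟩ : ∃ B' : ZFSet.{u}, B' = ZFSet.sep (fun x => ∃ b ∈ s, x = b.toZFSet)
      γ.toZFSet := ⟨_, rfl⟩
    have hH : HOD B' := ih B' fun x => by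
      rw [hB', mem_sep]
      refine ⟨fun h => h.2, fun h => ⟨?_, h⟩⟩
      obtain ⟨b, hb, rfl⟩ := h
      exact tzm.2 (hγ b (Finset.mem_insert_of_mem hb))
    have h1 := HOD_sep4 (Ψ := fun v => v 0 ∈ v 2 ∨ v 0 = v 5) ((Dfn.mem _ _).or (Dfn.eq _ _))
          (HOD_ord γ) hH HOD_empty HOD_empty a 0 0 0 0
    have h2 : B = ZFSet.sep (fun ξ => ξ ∈ B' ∨ ξ = a.toZFSet) γ.toZFSet := by
      ext x
      rw [hB, mem_sep, hB', mem_sep]
      constructor
      · rintro ⟨b, hb, rfl⟩
        refine ⟨tzm.2 (hγ b hb), ?_⟩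
        rcases Finset.mem_insert.1 hb with rfl | hb
        · exact Or.inr rfl
        · exact Or.inl ⟨tzm.2 (hγ b (Finset.mem_insert_of_mem hb)), b, hb, rfl⟩
      · rintro ⟨_, ⟨_, b, hb, rfl⟩ | rfl⟩
        · exact ⟨b, Finset.mem_insert_of_mem hb, rfl⟩
        · exact ⟨a, Finset.mem_insert_self _ _, rfl⟩
    rw [h2]
    exact h1

theorem result (b : Bool) (δ : Ordinal.{u}) (hδ : Extendible δ) :
    List.TFAE [HODHypothesis.{u} b, AltA δ,
      ∀ p ∈ V_ δ, ApproxRel δ p,
      Approx δ HOD.{u},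
      ∃ (p : ZFSet.{u}) (M : ZFSet.{u} → Prop) (κ : Ordinal.{u}), (∀ x, M x → HODp p x) ∧
        FinSets M ∧ ∀ l, ApproxOm κ l M,
      ∃ (M : ZFSet.{u} → Prop) (l κ : Ordinal.{u}), (∀ x, M x → HOD x) ∧ FinSets M ∧ δ < l ∧
        RegUnc (Ordinal.toZFSet l) ∧ (∃ ν < l, κ.card < ν.card) ∧ ApproxOm κ l M] := by
  classical
  have hres := Pool.Agent.Results.MP_e37c09_lc.AlternativeA.result b δ hδ
  have hres' := (Pool.Agent.Results.MP_dbe07f_lc.SetParameters.result b δ hδ).2
  tfae_have 1 ↔ 2 := hres.out 9 0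
  tfae_have 2 → 3 := by
    intro h p hp A hA hT
    have hFam : Families δ := (hres.out 0 5).1 h
    exact approx_gen hδ hFam hp hA fun T h1 h2 => (hT T h1 h2).odp
  tfae_have 3 → 4 := by
    intro h A hA hT
    have h0 : (∅ : ZFSet.{u}) ∈ V_ δ := mem_vonNeumann.2 (by
      rw [rank_empty]
      exact lt_of_le_of_lt bot_le hδ.om_lt)
    exact hod_of_hodp_empty (h ∅ h0 A hA fun T h1 h2 => (hT T h1 h2).hodp ∅)
  have h4 : Approx δ HOD.{u} → ∀ l, ApproxOm δ l HOD.{u} := by
    intro h l f A hf hA hT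
    refine h A (fun x hx => ?_) hT
    obtain ⟨n, rfl⟩ := (hA x).1 hx
    exact HOD_ord _
  tfae_have 4 → 5 := fun h => ⟨∅, HOD, δ, fun x hx => hx.hodp ∅, finSets_HOD, h4 h⟩
  tfae_have 4 → 6 := by
    intro h
    obtain ⟨l₁, hl₁, hr₁, _⟩ := exists_succ hδ.regUnc.isCard hδ.om_lt
    obtain ⟨l₂, hl₂, hr₂, _⟩ := exists_succ hr₁.isCard (hδ.om_lt.trans hl₁)
    exact ⟨HOD, l₂, δ, fun x hx => hx, finSets_HOD, hl₁.trans hl₂, hr₂,
      ⟨l₁, hl₂, hr₁.isCard.card_lt hl₁⟩, h4 h l₂⟩
  tfae_have 5 → 1 := by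
    rintro ⟨p, M, κ, hM, hfin, hap⟩
    have h1 : ∃ p : ZFSet.{u}, ∃ β : Ordinal.{u},
        Pool.Agent.Results.MP_dbe07f_lc.SetParameters.SingOm β (HODp p) := by
      refine ⟨p, κ, fun γ hγ hs hc => ?_⟩
      have hω : Ordinal.omega0 < γ := tz_mem.1 hs.2.1
      exact sing_of_approx hM hfin (hap γ) (hs.1.card_lt hω) (hs.1.card_lt hγ) hc
    have h2 := (hres'.out 4 0).1 h1
    intro β
    obtain ⟨l, hl, h3⟩ := h2 β
    exact ⟨l, hl, (notStrMeas_iff b l).2 h3⟩
  tfae_have 6 → 2 := by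
    rintro ⟨M, l, κ, hM, hfin, hδl, hr, ⟨ν, hν, hκν⟩, hap⟩
    have h4 : ∃ l ≥ δ, ManySing l := by
      refine ⟨l, hδl.le, hr, (statL_om hr (max_lt hν hδl)).mono fun α hα hκα => ⟨hκα.2, ?_⟩⟩
      have h1 : ν < α := (le_max_left _ _).trans_lt hκα.1
      have h2 : δ < α := (le_max_right _ _).trans_lt hκα.1
      have h3 := sing_of_approx (p := ∅) (κ := κ) (γ := α) (fun x hx => (hM x hx).hodp ∅) hfin
        (fun f A hf hA hT => hap f A (fun n => (hf n).trans hα) hA hT)
        ((hδ.regUnc.isCard.card_lt hδ.om_lt).trans_le (Ordinal.card_le_card h2.le))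
        (hκν.trans_le (Ordinal.card_le_card h1.le)) hκα.2
      obtain ⟨a, ha, g, hg, h5⟩ := h3
      exact ⟨a, ha, g, hod_of_hodp_empty hg, h5⟩
    exact (hres.out 3 0).1 h4
  tfae_finish

end Pool.Agent.Results.MP_e37c09_lc.Approximation
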