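import Pool.Agent.H639.One4

/-!
# One elementary embedding decides the HOD Conjecture

Let `δ` be an extendible cardinal. We consider elementary embeddings `j : V_η → V_θ` with critical
point `δ` and `η < j(δ)`, where `η > δ` is a limit ordinal; they exist for arbitrarily large `η`, and
`HOD^{V_θ}` is HOD as computed in `V_θ`. There is a zero-one law.

* If alternative (A) holds, then for every `λ`, for all sufficiently large `η` and all such
  `j : V_η → V_θ`, the restriction of `j` to `λ` belongs to `HOD^{V_θ}`.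
* If alternative (A) fails, then for every regular `l > δ`, for all sufficiently large `η` and all such
  `j : V_η → V_θ`, the supremum of `j[l]` (a singular ordinal of cofinality `l`) is a measurable
  cardinal in `HOD^{V_θ}`; and for all `η > l` it is regular in `HOD^{V_θ}`.

In particular the HOD Hypothesis holds if and only if for one embedding `j` and one regular cardinal
`l > δ` the ordinal `sup j[l]` is singular in `HOD^{V_θ}`.
-/

set_option autoImplicit false

namespace Pool.Agent.Results.MP_e37c09_lc.OneEmbedding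

open Pool.Agent.H310.HD Pool.Agent.H639 Gss969 ZFSet
open Pool.Agent.Results.MP_e37c09_lc.AlternativeA

universe u

/-- For every `λ`, for all sufficiently large `η`, the restriction to `λ` of every embedding
`j : V_η → V_θ` belongs to `HOD^{V_θ}`. -/
def AllRestrictions (δ : Ordinal.{u}) : Prop :=
  ∀ lam : Ordinal.{u}, ∃ ρ : Ordinal.{u}, ∀ η > ρ, ∀ (θ : Ordinal.{u}) (j : ZFSet.{u} → ZFSet.{u}),
    Wit δ η θ j → HODin (V_ θ) (gr lam.toZFSet j)

/-- For some regular `l > δ` and arbitrarily large `η` there is an embedding `j : V_η → V_θ` such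
that the supremum of `j[l]` is not measurable in `HOD^{V_θ}`. -/
def SomeNotMeasurable (δ : Ordinal.{u}) : Prop :=
  ∃ l > δ, RegUnc (Ordinal.toZFSet l) ∧ ∀ ρ : Ordinal.{u}, ∃ η > ρ, ∃ (θ : Ordinal.{u})
    (j : ZFSet.{u} → ZFSet.{u}), Wit δ η θ j ∧ ¬ MeasIn (HODin (V_ θ)) (SupIm j l).toZFSet

/-- There are a regular cardinal `l > δ` and one embedding `j : V_η → V_θ` with `l < η` such that the
supremum of `j[l]` is singular in `HOD^{V_θ}`. -/
def OneSingular (δ : Ordinal.{u}) : Prop :=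
  ∃ l > δ, RegUnc (Ordinal.toZFSet l) ∧ ∃ η > l, ∃ (θ : Ordinal.{u})
    (j : ZFSet.{u} → ZFSet.{u}), Wit δ η θ j ∧ CofinalP (HODin (V_ θ)) (SupIm j l).toZFSet

theorem result (b : Bool) (δ : Ordinal.{u}) (hδ : Extendible δ) :
    (∀ ξ : Ordinal.{u}, ∃ (η θ : Ordinal.{u}) (j : ZFSet.{u} → ZFSet.{u}), ξ < η ∧ Wit δ η θ j) ∧
    List.TFAE [HODHypothesis.{u} b, AltA δ, AllRestrictions δ, SomeNotMeasurable δ,
      OneSingular δ] := by
  have hres := Pool.Agent.Results.MP_e37c09_lc.AlternativeA.result b δ hδ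
  refine ⟨exists_wit hδ, ?_⟩
  have hnB : ¬ Bdd δ → AltA δ := by
    intro h
    by_contra hA
    have h1 : ¬ Families δ := fun h2 => hA ((hres.out 5 0).1 h2)
    exact h (bdd_of_not_families hδ h1)
  tfae_have 1 ↔ 2 := hres.out 9 0
  tfae_have 2 → 3 := by
    intro h lam
    have hFam : Families δ := (hres.out 0 5).1 h
    obtain ⟨ζ, _, h1⟩ := exists_setup_all hδ hFam lam 0
    refine ⟨ζ, fun η hη θ j hj => ?_⟩
    obtain ⟨ζ', hS⟩ := h1 η θ _ j hη (hj.data hδ.om_lt)
    exact hS.hodin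
  tfae_have 3 → 4 := by
    intro h
    obtain ⟨l, hl, hr⟩ := exists_regUnc δ
    obtain ⟨ρ₁, h1⟩ := h l
    obtain ⟨ρ₂, h2⟩ := not_sing_and_meas hδ hr hl
    refine ⟨l, hl, hr, fun ρ => ?_⟩
    obtain ⟨η, θ, j, hη, hj⟩ := exists_wit hδ (max (max ρ l) (max ρ₁ ρ₂))
    have hD := hj.data hδ.om_lt
    have hηρ : ρ < η := ((le_max_left _ _).trans (le_max_left _ _)).trans_lt hη
    have hηl : l < η := ((le_max_right _ _).trans (le_max_left _ _)).trans_lt hη
    have hη1 : ρ₁ < η := ((le_max_left _ _).trans (le_max_right _ _)).trans_lt hη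
    have hη2 : ρ₂ < η := ((le_max_right _ _).trans (le_max_right _ _)).trans_lt hη
    exact ⟨η, hηρ, θ, j, hj, h2 η hη2 θ _ j hD (sing_of_restr hD hr hl hηl (h1 η hη1 θ j hj))⟩
  tfae_have 3 → 5 := by
    intro h
    obtain ⟨l, hl, hr⟩ := exists_regUnc δ
    obtain ⟨ρ₁, h1⟩ := h l
    obtain ⟨η, θ, j, hη, hj⟩ := exists_wit hδ (max l ρ₁)
    have hD := hj.data hδ.om_lt
    have hηl : l < η := (le_max_left _ _).trans_lt hη
    exact ⟨l, hl, hr, η, hηl, θ, j, hj,
      sing_of_restr hD hr hl hηl (h1 η ((le_max_right _ _).trans_lt hη) θ j hj)⟩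
  tfae_have 4 → 2 := by
    rintro ⟨l, hl, hr, h⟩
    refine hnB fun hB => ?_
    obtain ⟨ρ, h1⟩ := sup_meas hδ hB hr hl
    obtain ⟨η, hη, θ, j, hj, h2⟩ := h ρ
    exact h2 (h1 η hη θ _ j (hj.data hδ.om_lt))
  tfae_have 5 → 2 := by
    rintro ⟨l, hl, hr, η, hη, θ, j, hj, h⟩
    exact hnB (not_bdd_of_sing (hj.data hδ.om_lt) hr hl hη h)
  tfae_finish

end Pool.Agent.Results.MP_e37c09_lc.OneEmbedding
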