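import Pool.Agent.H640.OR.Lad
import Pool.Graph.R_pool_sql_team_seeded_2aa45f1a.H310.HD.Gsplit

/-!
# Homogeneous sets for ordinal definable colourings decide the HOD dichotomy

Let `δ` be an extendible cardinal. For a regular `l > δ` call a stationary set `A ∈ HOD`, `A ⊆ l`, of
ordinals of cofinality less than `δ` positive. We prove a zero-one law. If the HOD Hypothesis holds
then for all regular `l > δ` and all positive `A` there is in `HOD` a colouring of the pairs of
elements of `A` with at most `δ` colours such that no `H ⊆ A` (in `V`) which contains one of its limit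
points is homogeneous. If the HOD Hypothesis fails then for all regular `l > δ`, all positive `A` and
all regressive colourings in `HOD` of the finite subsets of `A` there is a stationary homogeneous set
`H ⊆ A` in `HOD`.
-/

set_option autoImplicit false

namespace Pool.Agent.Results.MP_e37c09_lc.RegressiveColourings

open Pool.Agent.H310.HD Pool.Agent.H639 Pool.Agent.H640.OR Gss969 ZFSet
open Pool.Agent.Results.MP_e37c09_lc.AlternativeA

universe u

/-- `A` is a stationary subset of `l` in HOD, and its elements have cofinality less than `δ`. -/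
def Positive (δ l : Ordinal.{u}) (A : ZFSet.{u}) : Prop :=
  HOD A ∧ A ⊆ l.toZFSet ∧ Stat A l.toZFSet ∧ ∀ a ∈ A, ∃ m < δ, CofN (Ordinal.toZFSet m) a

/-- `H` is homogeneous for pairs: all two-element subsets of `H` have the same colour. -/
def Homog2 (c H : ZFSet.{u}) : Prop :=
  ∀ x ∈ FS H, ∀ y ∈ FS H, size x = 2 → size y = 2 → app c x = app c y

/-- `H` is homogeneous: the colour of a finite subset of `H` depends only on its size. -/
def Homog (c H : ZFSet.{u}) : Prop :=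
  ∀ x ∈ FS H, ∀ y ∈ FS H, size x = size y → app c x = app c y

/-- Colourings with at most `δ` colours in HOD of the finite subsets of `A`, such that no set which
contains one of its limit points is homogeneous for pairs. -/
def Ladder (δ : Ordinal.{u}) (A : ZFSet.{u}) : Prop :=
  ∃ c, HOD c ∧ IsFunc (FS A) δ.toZFSet c ∧
    ∀ H, H ⊆ A → (∃ β ∈ H, LimPt H β) → ¬ Homog2 c H

/-- Every regressive colouring in HOD of the finite subsets of `A` has a stationary homogeneous set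
in HOD. -/
def RegRamsey (l : Ordinal.{u}) (A : ZFSet.{u}) : Prop :=
  ∀ c, HOD c → IsFunc (FS A) l.toZFSet c → (∀ x ∈ FS A, ∀ a ∈ x, app c x ∈ a) →
    ∃ H, H ⊆ A ∧ HOD H ∧ Stat H l.toZFSet ∧ Homog c H

theorem result (b : Bool) (δ : Ordinal.{u}) (hδ : Extendible δ) :
    List.TFAE [HODHypothesis.{u} b, AltA δ,
      ∀ l > δ, RegUnc (Ordinal.toZFSet l) → ∀ A, Positive δ l A → Ladder δ A,
      ∃ l > δ, RegUnc (Ordinal.toZFSet l) ∧ ∃ A, Positive δ l A ∧ ¬ RegRamsey l A] := by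
  have hres := Pool.Agent.Results.MP_e37c09_lc.AlternativeA.result b δ hδ
  have hδ0 : 0 < δ := Ordinal.omega0_pos.trans hδ.om_lt
  tfae_have 1 ↔ 2 := hres.out 9 0
  tfae_have 2 → 3 := by
    intro h l hl hr A hA
    have hcov : Covers δ := (hres.out 0 7).1 h
    refine exists_ladder hδ0 hl hA.1 hA.2.1 fun β hβ => ?_
    obtain ⟨m, hm, hc⟩ := hA.2.2.2 β hβ
    obtain ⟨α, _, rfl⟩ := Ordinal.mem_toZFSet_iff.1 (hA.2.1 hβ)
    exact hcov α m hm hc
  tfae_have 3 → 4 := by
    intro h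
    obtain ⟨l, hl, hr⟩ := exists_regUnc δ
    have hA : Positive δ l (ZFSet.sep (fun α => δ.toZFSet ∈ α)
        (ZFSet.sep (fun α => CofN Ordinal.omega0.toZFSet α) l.toZFSet)) := by
      have h0 : HOD (ZFSet.sep (fun α => CofN Ordinal.omega0.toZFSet α) l.toZFSet) :=
        HOD_of_sub (OD_cof _ l) fun p hp => (HOD_ord l).mem (mem_sep.1 hp).1
      refine ⟨?_, fun z hz => (mem_sep.1 (mem_sep.1 hz).1).1, ?_, fun a ha =>
        ⟨_, hδ.om_lt, (mem_sep.1 (mem_sep.1 ha).1).2⟩⟩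
      · exact HOD_sep4 (Ψ := fun v => v 5 ∈ v 0) (Dfn.mem _ _) h0 h0 h0 h0 δ 0 0 0 0
      · rw [stat_iff]
        refine (statL_om hr hl).mono fun α hα h => ?_
        have h6 : α.toZFSet ∈ ZFSet.sep (fun α => CofN Ordinal.omega0.toZFSet α) l.toZFSet :=
          mem_sep.2 ⟨tzm.2 hα, h.2⟩
        have h7 : δ.toZFSet ∈ α.toZFSet := tzm.2 h.1
        have h8 : α.toZFSet ∈ ZFSet.sep (fun α => δ.toZFSet ∈ α)
            (ZFSet.sep (fun α => CofN Ordinal.omega0.toZFSet α) l.toZFSet) := by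
          rw [mem_sep]
          exact ⟨h6, h7⟩
        exact h8
    obtain ⟨c, hc, hcf, hcH⟩ := h l hl hr _ hA
    refine ⟨l, hl, hr, _, hA, fun hR => ?_⟩
    have hcf' : IsFunc (FS (ZFSet.sep (fun α => δ.toZFSet ∈ α)
        (ZFSet.sep (fun α => CofN Ordinal.omega0.toZFSet α) l.toZFSet))) l.toZFSet c := by
      refine ⟨fun p hp => ?_, hcf.2⟩
      obtain ⟨x, hx, y, hy, rfl⟩ := mem_prod.1 (hcf.1 hp)
      exact mem_prod_of hx ((isOrdinal_toZFSet l).1.mem_trans hy (tzm.2 hl))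
    obtain ⟨H, h1, h2, h3, h4⟩ := hR c hc hcf' fun x hx a ha => by
      obtain ⟨α, _, rfl⟩ := Ordinal.mem_toZFSet_iff.1 (hA.2.1 ((mem_FS.1 hx).1 ha))
      exact (isOrdinal_toZFSet α).1.mem_trans (app_mem hcf hx) (mem_sep.1 ((mem_FS.1 hx).1 ha)).2
    refine hcH H h1 ?_ fun x hx y hy e e' => h4 x hx y hy (e.trans e'.symm)
    -- a stationary set contains one of its limit points
    have h5 := stat_iff.1 h3
    have hunb : ∀ ξ < l, ∃ η < l, ξ < η ∧ η.toZFSet ∈ H := by
      intro ξ hξ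
      obtain ⟨η, hη, h6⟩ := statL_nonempty hr (h5.tail hr hξ)
      exact ⟨η, hη, h6.2, h6.1⟩
    choose! N hN1 hN2 hN3 using hunb
    obtain ⟨α, hα, h6, h7⟩ := h5 _ (fun x hx => (mem_sep.1 hx).1)
      (club_closure hr N fun ξ hξ => hN1 ξ hξ)
    obtain ⟨_, h8, h9⟩ := mem_sep.1 h7
    refine ⟨α.toZFSet, h6, h8, fun y hy => ?_⟩
    obtain ⟨ξ, hξ, rfl⟩ := Ordinal.mem_toZFSet_iff.1 hy
    have h10 := h9 _ hy
    rw [Ordinal.rank_toZFSet] at h10
    exact ⟨_, hN3 ξ (hξ.trans hα), h10, tzm.2 (hN2 ξ (hξ.trans hα))⟩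
  tfae_have 4 → 1 := by
    rintro ⟨l, hl, hr, A, hA, hn⟩
    by_contra hcon
    have hB : Bdd δ := bdd_of_not_hod hδ b hcon
    obtain ⟨hAH, hAl, hAs, hAc⟩ := hA
    refine hn fun c hc hcf hreg => ?_
    obtain ⟨μ, hμ, h2⟩ := StatL.union hr (stat_iff.1 hAs) hl
      (P := fun m α => m < δ ∧ CofN m.toZFSet α.toZFSet) (by
        rintro α h1 _
        obtain ⟨m, hm, h⟩ := hAc α.toZFSet h1
        exact ⟨m, hm, hm, h⟩)
    obtain ⟨s, hs, hno⟩ := hB μ hμ
    obtain ⟨m', hm', g, hg⟩ := few_subsets hδ hs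
    have hRH : HOD (ZFSet.sep (fun a => CofN μ.toZFSet a) A) :=
      HOD_sep4 (Ψ := fun v => CofN (v 5) (v 0)) (dfn_CofN _ _) hAH HOD_empty HOD_empty HOD_empty
        μ 0 0 0 0
    obtain ⟨S, h3, hS⟩ := exists_atom (A := ZFSet.sep (fun a => CofN μ.toZFSet a) A) hr
      (hs.trans hl) ⟨m', hm'.trans hl, g, hg⟩ (hno l hr) hRH
      (fun a ha => hAl (mem_sep.1 ha).1) (by
        rw [stat_iff]
        exact h2.mono fun α _ h5 => mem_sep.2 ⟨h5.1, h5.2.2⟩) (fun a ha => (mem_sep.1 ha).2)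
    have hSA : S ⊆ A := fun a ha => (mem_sep.1 (h3 ha)).1
    have hsub : ∀ x ∈ FS S, x ∈ FS A := fun x hx => FS_mono hSA hx
    have hF : Good l.toZFSet S (app c) := by
      refine ⟨?_, fun x hx => app_mem hcf (hsub x hx), fun x hx a ha => hreg x (hsub x hx) a ha⟩
      refine HOD_gr4 (Ψ := fun v => pair (v 1) (v 0) ∈ v 4) (dfn_pm Lvl_sub_Trs _ _ _)
        (HOD_FS hS.1) (HOD_ord l) hc hc 0 0 0 0 fun x hx =>
        ⟨app_mem hcf (hsub x hx), fun y hy => ?_⟩
      show pair x y ∈ c ↔ _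
      rw [app_iff hcf (hsub x hx)]
      exact eq_comm
    obtain ⟨H, h4, h5, h6, _, h7⟩ := exists_homog hr hS hF
    exact ⟨H, fun z hz => hSA (h4 hz), h5, h6, h7⟩
  tfae_finish

end Pool.Agent.Results.MP_e37c09_lc.RegressiveColourings
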