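import Pool.Agent.H639.Mit8

/-!
# The dichotomy and singular cardinals which are measurable in HOD

Let `δ` be an extendible cardinal. If (B) holds, that is, if all regular cardinals above `δ` are
measurable in HOD, then many singular cardinals above `δ` are measurable in HOD as well: below every
regular `l > δ` the ordinals of cofinality less than `δ` that are measurable in HOD form a stationary
set. So alternative (A) is equivalent to each of the following: no singular cardinal above `δ` is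
measurable in HOD; no large singular cardinal is; all `α > δ` measurable in HOD have cofinality `|α|`;
for one cardinal `γ ≥ δ` there is no `α` measurable in HOD with `γ < α < γ⁺`; for one regular `l > δ`
the set above is not stationary. Moreover it suffices for (A) that for some `β < δ` no singular cardinal
between `β` and `δ` is measurable in HOD.
-/

set_option autoImplicit false

namespace Pool.Agent.Results.MP_e37c09_lc.SingularMeasurable

open Pool.Agent.H310.HD Pool.Agent.H639 Gss969 ZFSet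
open Pool.Agent.Results.MP_e37c09_lc.AlternativeA

universe u

theorem result (b : Bool) (δ : Ordinal.{u}) (hδ : Extendible δ) :
    List.TFAE [AltA δ,
      HODHypothesis.{u} b,
      ∀ γ > δ, IsSing (Ordinal.toZFSet γ) → ¬ MeasIn HOD (Ordinal.toZFSet γ),
      ∃ ρ : Ordinal.{u}, ∀ γ > ρ, IsSing (Ordinal.toZFSet γ) → ¬ MeasIn HOD (Ordinal.toZFSet γ),
      ∀ α > δ, MeasIn HOD (Ordinal.toZFSet α) → ∀ ν : Ordinal.{u}, CofN ν.toZFSet α.toZFSet →
        α.card ≤ ν.card,
      ∃ γ ≥ δ, ∃ l : Ordinal.{u}, IsCard (Ordinal.toZFSet γ) ∧ IsSuccCard γ.toZFSet l.toZFSet ∧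
        ∀ α, γ < α → α < l → ¬ MeasIn HOD (Ordinal.toZFSet α),
      ∃ l > δ, RegUnc (Ordinal.toZFSet l) ∧
        ¬ StatL {α | (∃ m < δ, CofN (Ordinal.toZFSet m) α.toZFSet) ∧ MeasIn HOD α.toZFSet} l] ∧
    ((∃ β < δ, ∀ γ, β < γ → γ < δ → IsSing (Ordinal.toZFSet γ) →
      ¬ MeasIn HOD (Ordinal.toZFSet γ)) → AltA δ) := by
  have hres := Pool.Agent.Results.MP_e37c09_lc.AlternativeA.result b δ hδ
  have hB : ¬ AltA δ → Bdd δ := fun h =>
    bdd_of_not_hod hδ b fun h' => h ((hres.out 0 9).2 h')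
  have h41 : (∃ ρ : Ordinal.{u}, ∀ γ > ρ, IsSing (Ordinal.toZFSet γ) →
      ¬ MeasIn HOD (Ordinal.toZFSet γ)) → AltA δ := by
    rintro ⟨ρ, h⟩
    by_contra hc
    obtain ⟨γ, h1, h2, h3⟩ := exists_sing_meas hδ (hB hc) (max ρ δ) (le_max_right _ _)
    exact h γ ((le_max_left _ _).trans_lt h1) h2 h3
  constructor
  · tfae_have 1 ↔ 2 := hres.out 0 9
    tfae_have 1 → 5 := by
      intro h α hα hm ν hν
      have h7 : BigCof δ := (hres.out 0 6).1 h
      exact h7 α hα (MeasIn.reg hm) ν hν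
    tfae_have 5 → 3 := by
      intro h γ hγ hs hm
      obtain ⟨hcard, hom, a, ha, hc⟩ := hs
      obtain ⟨a, ha', rfl⟩ := Ordinal.mem_toZFSet_iff.1 ha
      exact absurd (h γ hγ hm a hc) (not_le.2 (hcard.card_lt ha'))
    tfae_have 3 → 4 := fun h => ⟨δ, h⟩
    tfae_have 4 → 1 := h41
    tfae_have 1 → 6 := by
      intro h
      obtain ⟨l, hl, hr, hlim⟩ := hδ.exists_regLim δ
      obtain ⟨γ, _, ⟨h1, h2, _⟩, _⟩ := statL_card hr hlim hl l.toZFSet (fun x hx => hx)
        ⟨fun x hx => hx, fun x hx => by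
          obtain ⟨γ, hγ, rfl⟩ := Ordinal.mem_toZFSet_iff.1 hx
          exact ⟨_, tz_mem.2 (hr.succ_lt hγ), tz_mem.2 (Order.lt_succ γ)⟩, fun a ha _ _ => ha⟩
      have h2' := h2
      obtain ⟨hcard, hom, _⟩ := h2'
      obtain ⟨l', hl', hr', hsucc⟩ := exists_succ hcard (tz_mem.1 hom)
      exact ⟨γ, h1.le, l', hcard, hsucc, fun α hγα hα hm =>
        h γ h1 h2 l' hsucc α hγα.le hα (MeasIn.reg hm)⟩
    tfae_have 6 → 7 := by
      rintro ⟨γ, hγ, l, hcard, hs, h⟩
      have hom : Ordinal.omega0 < γ := hδ.om_lt.trans_le hγ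
      obtain ⟨l', hl', hr', hsucc⟩ := exists_succ hcard hom
      have e : l' = l := by
        have key : ∀ {a c : Ordinal.{u}}, IsSuccCard γ.toZFSet a.toZFSet →
            IsSuccCard γ.toZFSet c.toZFSet → ¬ a < c := by
          intro a c ha hc hac
          obtain ⟨g, hg, hg2⟩ := hc.2.2 a.toZFSet (tzm.2 hac) ⟨_, ha.2.1, rfl⟩
          obtain ⟨y, hy, h3⟩ := ha.1.2 γ.toZFSet ha.2.1 g hg
          obtain ⟨x, hx, hxy⟩ := hg2 y hy
          exact h3 x hx hxy
        exact le_antisymm (not_lt.1 (key hs hsucc)) (not_lt.1 (key hsucc hs))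
      subst e
      refine ⟨l', hγ.trans_lt hl', hr', fun hst => ?_⟩
      obtain ⟨α, hα, ⟨⟨_, h1⟩, h2⟩, _⟩ := hst.tail hr' hl' l'.toZFSet (fun x hx => hx)
        ⟨fun x hx => hx, fun x hx => by
          obtain ⟨γ, hγ, rfl⟩ := Ordinal.mem_toZFSet_iff.1 hx
          exact ⟨_, tz_mem.2 (hr'.succ_lt hγ), tz_mem.2 (Order.lt_succ γ)⟩, fun a ha _ _ => ha⟩
      exact h α h2 hα h1
    tfae_have 7 → 1 := by
      rintro ⟨l, hl, hr, h⟩
      by_contra hc
      exact h (statL_meas hδ (hB hc) hr hl)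
    tfae_finish
  · rintro ⟨β, hβ, h⟩
    refine h41 ⟨β, fun γ hγ hs hm => ?_⟩
    obtain ⟨γ', h1, h2, h3, h4⟩ := hδ.belowLoc3 loc3_singMeas hβ hγ ⟨hs, hm⟩
    exact h γ' h1 h2 h3 h4

end Pool.Agent.Results.MP_e37c09_lc.SingularMeasurable
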